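import Pool.Agent.TH696.FA.Final3

set_option autoImplicit false

/-!
# MP_f6c7cf_nt: prime factors up to `c log n` of `2^x + 2^y + 2^z + 1`

For odd `n` the quadruples `(x, y, z, w)` of natural numbers with `n = x² + y² + z² + 4 w²` are
considered; `N` stands for `2^x + 2^y + 2^z + 1`.

Every odd `n` has at least `c n ^ (1 - ε)` quadruples for which every prime factor `q ≤ c log n` of
`N` is odd and exceptional: `l²` divides the order of `2` modulo `q` for a prime `l ≥ 5` that
divides `(3n-2)(9n-2)`, or `3` divides this order, where the second case does not occur for `q = 7`,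
nor if `3 ∣ n` or `n ≡ 13 mod 32`. In particular, if `3 ∣ n` or `n ≡ 13 mod 32` and if no prime
`l ≥ 5` with `l² ≤ c log n` divides `(3n-2)(9n-2)` then all prime factors of `N` are larger than
`c log n`.

The proof. Let `K = 2^v 3^w M` with `M` coprime to `6`, and let `T = 2^z`. If `x = y = -z-1` modulo
`K` then `N` is `T⁻¹ (1 + T + T²)` modulo a prime factor `q` of `2^K - 1`, and if `x = y = 2z-1` then
`N` is `1 + T + T²`; this is not zero if the order of `T` is not `3`, which is so if `3^(w+1) ∣ z` or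
if `3` does not divide `K`. If `x = y = z-1` then `N` is `1 + 2^(x+2)`, which is not zero if
`2^v ∣ x + 2`. It is shown that these congruences are solvable together with
`n = x² + y² + z² + 4w²` modulo every prime power, and that every admissible residue class modulo
every `D ≤ n ^ δ` divisible by `4` contains at least `n ^ (1 - ε)` representations of `n` as a sum
of four squares of natural numbers.
-/

namespace Pool.Agent.Results.MP_f6c7cf_nt.ManyPrimesToLog

theorem result (ε : ℝ) (hε : 0 < ε) : ∃ c : ℝ, 0 < c ∧ ∀ n : ℕ, Odd n →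
    ∃ S : Finset (ℕ × ℕ × ℕ × ℕ), c * (n : ℝ) ^ (1 - ε) ≤ (S.card : ℝ) ∧
      ∀ x y z w : ℕ, (x, y, z, w) ∈ S → n = x ^ 2 + y ^ 2 + z ^ 2 + 4 * w ^ 2 ∧
        ∀ q : ℕ, q.Prime → q ∣ 2 ^ x + 2 ^ y + 2 ^ z + 1 → (q : ℝ) ≤ c * Real.log n →
          q ≠ 2 ∧
          ((∃ l : ℕ, l.Prime ∧ 5 ≤ l ∧ l ^ 2 ∣ orderOf (2 : ZMod q) ∧
              (l : ℤ) ∣ (3 * n - 2) * (9 * n - 2)) ∨
            (¬ 3 ∣ n ∧ n % 32 ≠ 13 ∧ q ≠ 7 ∧ 3 ∣ orderOf (2 : ZMod q))) :=
  Pool.Agent.TH696.FA.main_log2 ε hε

end Pool.Agent.Results.MP_f6c7cf_nt.ManyPrimesToLog
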